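import Pool.Agent.K6.H57.NG.Final

/-!
# MP_6bf2ef_co, Q1: `q(G) + q(Gᶜ) ≤ n + 2` for all graphs with sufficiently many vertices

Also: a graph whose complement has bounded degree has a matrix with at most two distinct
eigenvalues, if it has sufficiently many vertices.

Proof. (1) A symmetric matrix with the strong spectral property and the pattern of a spanning
subgraph gives a matrix with the same spectrum and the pattern of the graph (inverse function
theorem); so `q` is bounded by the sum of the costs of the parts of a partition of the vertices into
single vertices (cost 1), cliques (2), claws (3), complete split graphs on `4 + 4` vertices (2) and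
stars with `3 r` leaves (`2 r + 1`).  (2) Ramsey's theorem: if neither the graph nor the complement
has only boundedly many disjoint claws, then there is a bounded set of vertices whose costs in the
graph and in the complement sum up to less than its size.  (3) In the remaining case the complement
(say) has bounded chromatic number; if it has a vertex of large degree, a star saves enough,
otherwise there is a projection with the pattern of `G`: orthogonal representation in general
position in dimension `2 D + 1` together with a robust positive representation of the identity.

The pieces of the proof were written by helper5, helper13, helper20, helper30, helper35, helper38,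
helper44, helper49 and helper95.
-/

set_option autoImplicit false

namespace Pool.Agent.Results.MP_6bf2ef_co.AllLargeGraphs

/-- `q(G)`: the least number of distinct eigenvalues of a real symmetric matrix whose off-diagonal
nonzero pattern is exactly the edge set of `G`. -/
noncomputable def q {n : ℕ} (G : SimpleGraph (Fin n)) : ℕ :=
  sInf {k : ℕ | ∃ A : Matrix (Fin n) (Fin n) ℝ, A.IsSymm ∧
    (∀ i j : Fin n, i ≠ j → (A i j ≠ 0 ↔ G.Adj i j)) ∧ (spectrum ℝ A).ncard = k}

lemma q_eq {n : ℕ} (G : SimpleGraph (Fin n)) : q G = Pool.Agent.K6.H57.NG.q G := rfl

/-- All graphs with sufficiently many vertices satisfy `q(G) + q(Gᶜ) ≤ n + 2`; and for every `D` all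
graphs with sufficiently many vertices whose complement has maximum degree at most `D` satisfy
`q(G) ≤ 2`. -/
theorem result :
    (∃ n₀ : ℕ, ∀ n : ℕ, n₀ ≤ n → ∀ G : SimpleGraph (Fin n), q G + q Gᶜ ≤ n + 2) ∧
    ∀ D : ℕ, ∃ n₀ : ℕ, ∀ n : ℕ, n₀ ≤ n → ∀ G : SimpleGraph (Fin n),
      (∀ v, {w | w ≠ v ∧ ¬ G.Adj v w}.ncard ≤ D) → q G ≤ 2 := by
  constructor
  · obtain ⟨n₀, h⟩ := Pool.Agent.K6.H57.NG.all_large
    refine ⟨n₀, fun n hn G => ?_⟩
    have := h (Fin n) G (by simpa using hn)
    rw [Fintype.card_fin] at this
    exact this
  · intro D
    obtain ⟨n₀, h⟩ := Pool.Agent.K6.H57.NG.bounded D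
    refine ⟨n₀, fun n hn G hG => ?_⟩
    have := h (Fin n) Gᶜ (by simpa using hn) (fun v => by
      refine le_trans (le_of_eq ?_) (hG v)
      congr 1
      ext w
      simp only [SimpleGraph.mem_neighborSet, SimpleGraph.compl_adj, Set.mem_setOf_eq]
      tauto)
    rw [compl_compl] at this
    exact this

end Pool.Agent.Results.MP_6bf2ef_co.AllLargeGraphs
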